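import Pool.Agent.U16.UGO.Pull

/-!
# The Unique Games Conjecture on the hardest instances
-/

set_option autoImplicit false
set_option linter.unusedSectionVars false

namespace Pool.Agent.U16.UGO

open Finset Pool.Agent.NPC Pool.Agent.NPC.R671 Pool.Agent.W888.UG

variable {N M q k N' M' q' k' : ℕ}

/-- The semidefinite relaxation of a game. -/
def Rel (ε : ℝ) (g : Game N M q k) : Set (Fin N ⊕ Fin M → Fin q → ℝ) :=
  Relax (fun e => (g e).1) (fun e => (g e).2.1) (fun e => (g e).2.2) ε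

/-- Every proof by branch-and-cut that the value of the game is less than `1 - ε` is large. -/
def ProofHard (ε η : ℝ) (g : Game N M q k) : Prop :=
  (∀ F : List (Set (Fin N ⊕ Fin M → Fin q → ℝ)), (∀ C ∈ F, Convex ℝ C) →
    (∀ C ∈ F, ∀ μ ∈ C, μ ∉ Rel ε g) → (∀ l : Fin N ⊕ Fin M → Fin q, ∃ C ∈ F, lab l ∈ C) →
    Real.exp ((k : ℝ) ^ (1 - η)) ≤ F.length) ∧
  (∀ T : Tree (Fin N ⊕ Fin M) (Fin q), T.Proves (Rel ε g) Set.univ →
    Real.exp ((k : ℝ) ^ (1 - η)) ≤ T.leaves) ∧
  ∀ l, SplitProof (Rel ε g) l Set.univ → Real.exp ((k : ℝ) ^ (1 - η)) ≤ 2 * l.length + 1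

/-- A base game, with the vertices, labels and edges numbered. -/
theorem base (ε δ : ℝ) (hε0 : 0 < ε) (hε1 : ε < 1) (hδ : 0 < δ) :
    ∃ (N0 M0 q0 k0 : ℕ) (g0 : Game N0 M0 q0 k0) (c : ℝ), 0 < k0 ∧ 0 < c ∧ ValueAtMost δ g0 ∧
      ∀ (m : ℕ) (N M q k : ℕ) (g : Game N M q k),
      ∀ F : List (Set (Fin (N * (N0 * m)) ⊕ Fin (M * (M0 * m)) → Fin (q + q0) → ℝ)),
        (∀ C ∈ F, Convex ℝ C) → (∀ C ∈ F, ∀ μ ∈ C, μ ∉ Rel ε (orG g (copies m g0))) →
        (∀ l : Fin (N * (N0 * m)) ⊕ Fin (M * (M0 * m)) → Fin (q + q0), ∃ C ∈ F, lab l ∈ C) →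
        Real.exp (c * m) ≤ F.length := by
  classical
  obtain ⟨U, V, E, A, iU, iV, iE, neE, iA, dA, dE, s, t, π, hval, c, hc, hcov⟩ :=
    kv_base ε δ hε0 hε1 hδ
  let eU := Fintype.equivFin U
  let eV := Fintype.equivFin V
  let eE := Fintype.equivFin E
  let eA := Fintype.equivFin A
  let g0 : Game (Fintype.card U) (Fintype.card V) (Fintype.card A) (Fintype.card E) :=
    fun e => (eU (s (eE.symm e)), eV (t (eE.symm e)), eA.permCongr (π (eE.symm e)))
  refine ⟨_, _, _, _, g0, c, Fintype.card_pos, hc, ?_, ?_⟩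
  · intro L R
    refine le_trans (le_of_eq ?_) (hval (fun u => eA.symm (L (eU u)))
      (fun v => eA.symm (R (eV v))))
    congr 1
    unfold sat
    refine Finset.card_bij (fun e _ => eE.symm e) ?_ ?_ ?_
    · intro e he
      rw [mem_filter] at he ⊢
      refine ⟨mem_univ _, ?_⟩
      rw [← he.2]
      simp [g0]
    · intro e _ e' _ h
      exact eE.symm.injective h
    · intro e he
      refine ⟨eE e, ?_, eE.symm_apply_apply e⟩
      rw [mem_filter] at he ⊢
      refine ⟨mem_univ _, ?_⟩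
      have h := congrArg eA he.2
      simpa [g0] using h
  · intro m N M q k g F hconv hmiss hl
    have e1 : ∀ e, (orG g (copies m g0) e).1 = finProdFinEquiv ((g (finProdFinEquiv.symm e).1).1,
        finProdFinEquiv ((g0 (finProdFinEquiv.symm (finProdFinEquiv.symm e).2).1).1,
          (finProdFinEquiv.symm (finProdFinEquiv.symm e).2).2)) := fun e => rfl
    have e2 : ∀ e, (orG g (copies m g0) e).2.1 =
        finProdFinEquiv ((g (finProdFinEquiv.symm e).1).2.1,
        finProdFinEquiv ((g0 (finProdFinEquiv.symm (finProdFinEquiv.symm e).2).1).2.1,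
          (finProdFinEquiv.symm (finProdFinEquiv.symm e).2).2)) := fun e => rfl
    have e3 : ∀ e, (orG g (copies m g0) e).2.2 = psum (g (finProdFinEquiv.symm e).1).2.2
        (g0 (finProdFinEquiv.symm (finProdFinEquiv.symm e).2).1).2.2 := fun e => rfl
    let O : Over (fun e : E × Fin m => (s e.1, e.2)) (fun e : E × Fin m => (t e.1, e.2))
        (fun e => π e.1) (fun e => (orG g (copies m g0) e).1)
        (fun e => (orG g (copies m g0) e).2.1) (fun e => (orG g (copies m g0) e).2.2) :=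
      { pU := fun w => (eU.symm (finProdFinEquiv.symm (finProdFinEquiv.symm w).2).1,
          (finProdFinEquiv.symm (finProdFinEquiv.symm w).2).2)
        pV := fun w => (eV.symm (finProdFinEquiv.symm (finProdFinEquiv.symm w).2).1,
          (finProdFinEquiv.symm (finProdFinEquiv.symm w).2).2)
        pE := fun w => (eE.symm (finProdFinEquiv.symm (finProdFinEquiv.symm w).2).1,
          (finProdFinEquiv.symm (finProdFinEquiv.symm w).2).2)
        ι := fun a => Fin.natAdd q (eA a)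
        inj := fun a b h => eA.injective (Fin.natAdd_injective _ _ h)
        hs := fun e => by
          rw [e1]
          simp [g0]
        ht := fun e => by
          rw [e2]
          simp [g0]
        hπ := fun e a => by
          rw [e3, psum_right]
          simp [g0]
        c := k
        hc := fun e => by
          rw [card_pairs']
          have h1 : ∀ i : Fin k, (univ.filter fun j : Fin (Fintype.card E * m) =>
              ((eE.symm (finProdFinEquiv.symm (finProdFinEquiv.symm (finProdFinEquiv (i, j))).2).1,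
                (finProdFinEquiv.symm (finProdFinEquiv.symm (finProdFinEquiv (i, j))).2).2) :
                E × Fin m) = e) = {finProdFinEquiv (eE e.1, e.2)} := by
            intro i
            ext j
            rw [mem_filter, mem_singleton, Equiv.symm_apply_apply]
            constructor
            · rintro ⟨-, h⟩
              rw [← h]
              simp only [Equiv.apply_symm_apply, Prod.mk.eta]
            · rintro h
              refine ⟨mem_univ _, ?_⟩
              rw [h]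
              simp
          simp only [h1, card_singleton]
          rw [Finset.sum_const, card_univ, Fintype.card_fin, smul_eq_mul, mul_one] }
    obtain ⟨F0, hF0, h1, h2, h3⟩ := O.cover F hconv hmiss hl
    rw [← hF0]
    exact hcov m F0 h1 h2 h3

/-- The number of the copies. -/
theorem number {c η : ℝ} (hc : 0 < c) (hη : 0 < η) (k0 : ℕ) (hk0 : 0 < k0) :
    ∃ K t : ℕ, 0 < K ∧ ∀ k : ℕ, 0 < k →
      ((k * (k0 * (K * k ^ t)) : ℕ) : ℝ) ^ (1 - η) ≤ c * ((K * k ^ t : ℕ) : ℝ) := by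
  obtain ⟨t, ht⟩ := exists_nat_ge (1 / η)
  obtain ⟨K0, hK0⟩ := exists_nat_ge (((k0 : ℝ) / c) ^ (1 / η))
  refine ⟨K0 + 1, t, Nat.succ_pos _, fun k hk => ?_⟩
  have hkR : (1 : ℝ) ≤ k := by exact_mod_cast hk
  have hk0R : (1 : ℝ) ≤ k0 := by exact_mod_cast hk0
  have hK1 : (1 : ℝ) ≤ ((K0 + 1 : ℕ) : ℝ) := by
    exact_mod_cast Nat.succ_pos _
  obtain ⟨m, hm⟩ : ∃ m : ℝ, m = (((K0 + 1) * k ^ t : ℕ) : ℝ) := ⟨_, rfl⟩
  have hm1 : 1 ≤ m := by
    rw [hm]
    exact_mod_cast Nat.mul_pos (Nat.succ_pos _) (pow_pos hk _)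
  have h1 : ((k * (k0 * ((K0 + 1) * k ^ t)) : ℕ) : ℝ) = (k * k0) * m := by
    rw [hm]
    push_cast
    ring
  rw [h1, ← hm]
  have hkk : (1 : ℝ) ≤ k * k0 := one_le_mul_of_one_le_of_one_le hkR hk0R
  rw [Real.mul_rpow (by positivity) (by positivity)]
  have h2 : ((k : ℝ) * k0) ^ (1 - η) ≤ k * k0 := by
    calc ((k : ℝ) * k0) ^ (1 - η) ≤ ((k : ℝ) * k0) ^ (1 : ℝ) :=
          Real.rpow_le_rpow_of_exponent_le hkk (by linarith)
      _ = k * k0 := Real.rpow_one _
  have h3 : (k : ℝ) * k0 ≤ c * m ^ η := by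
    have h4 : (k0 : ℝ) / c ≤ ((K0 + 1 : ℕ) : ℝ) ^ η := by
      have h5 : (((k0 : ℝ) / c) ^ (1 / η)) ^ η = (k0 : ℝ) / c := by
        rw [← Real.rpow_mul (by positivity), one_div_mul_cancel hη.ne', Real.rpow_one]
      rw [← h5]
      refine Real.rpow_le_rpow (by positivity) ?_ hη.le
      push_cast
      linarith
    have h5 : (k : ℝ) ≤ ((k ^ t : ℕ) : ℝ) ^ η := by
      rw [Nat.cast_pow, ← Real.rpow_natCast, ← Real.rpow_mul (by positivity)]
      have h6 : 1 ≤ (t : ℝ) * η := by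
        rw [div_le_iff₀ hη] at ht
        exact ht
      calc (k : ℝ) = (k : ℝ) ^ (1 : ℝ) := (Real.rpow_one _).symm
        _ ≤ _ := Real.rpow_le_rpow_of_exponent_le hkR h6
    rw [hm, Nat.cast_mul, Real.mul_rpow (by positivity) (by positivity)]
    rw [div_le_iff₀ hc] at h4
    calc (k : ℝ) * k0 ≤ ((k ^ t : ℕ) : ℝ) ^ η * (((K0 + 1 : ℕ) : ℝ) ^ η * c) :=
          mul_le_mul h5 h4 (by positivity) (by positivity)
      _ = _ := by ring
  have h7 : m ^ η * m ^ (1 - η) = m := by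
    rw [← Real.rpow_add (by linarith)]
    norm_num
  calc ((k : ℝ) * k0) ^ (1 - η) * m ^ (1 - η) ≤ (c * m ^ η) * m ^ (1 - η) :=
        mul_le_mul_of_nonneg_right (h2.trans h3) (by positivity)
    _ = c * (m ^ η * m ^ (1 - η)) := by ring
    _ = c * m := by rw [h7]

theorem proofHard_of {ε η : ℝ} (g : Game N M q k)
    (h : ∀ F : List (Set (Fin N ⊕ Fin M → Fin q → ℝ)), (∀ C ∈ F, Convex ℝ C) →
      (∀ C ∈ F, ∀ μ ∈ C, μ ∉ Rel ε g) → (∀ l : Fin N ⊕ Fin M → Fin q, ∃ C ∈ F, lab l ∈ C) →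
      Real.exp ((k : ℝ) ^ (1 - η)) ≤ F.length) : ProofHard ε η g := by
  have hT : ∀ T : Tree (Fin N ⊕ Fin M) (Fin q), T.Proves (Rel ε g) Set.univ →
      Real.exp ((k : ℝ) ^ (1 - η)) ≤ T.leaves := by
    intro T hT
    obtain ⟨F, hF, h1, h2, h3⟩ := cover_of_tree (Rel ε g) T Set.univ convex_univ hT
    rw [← hF]
    exact h F h1 h2 fun l => h3 l (Set.mem_univ _)
  refine ⟨h, hT, fun l hl => ?_⟩
  obtain ⟨T, hT1, hT2⟩ := tree_of_split (Rel ε g) l Set.univ hl
  have h1 := hT T hT2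
  rw [hT1] at h1
  exact_mod_cast h1

/-! ### The reductions -/

/-- The code is a yes instance. -/
def Yes (F : ∀ {N M q k : ℕ}, Game N M q k → Prop) (ε : ℝ) (q : ℕ) : Set (List Bool) :=
  {x | ∃ (N M k : ℕ) (g : Game N M q k), 0 < k ∧ F g ∧ ValueAtLeast (1 - ε) g ∧ x = code g}

/-- The code is a no instance. -/
def No (F : ∀ {N M q k : ℕ}, Game N M q k → Prop) (δ : ℝ) (q : ℕ) : Set (List Bool) :=
  {x | ∃ (N M k : ℕ) (g : Game N M q k), 0 < k ∧ F g ∧ ValueAtMost δ g ∧ x = code g}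

/-- Every language in NP reduces to the promise problem `(Y, Z)`. -/
def Hard (Y Z : Set (List Bool)) : Prop :=
  ∀ L, InNP L → ∃ f, PolyTime f ∧ ∀ x, (x ∈ L → f x ∈ Y) ∧ (x ∉ L → f x ∈ Z)

theorem Hard.mono {Y Z Y' Z' : Set (List Bool)} (h : Hard Y Z) {g : List Bool → List Bool}
    (hg : PolyTime g) (hY : ∀ y ∈ Y, g y ∈ Y') (hZ : ∀ y ∈ Z, g y ∈ Z') : Hard Y' Z' := by
  intro L hL
  obtain ⟨f, hf, h⟩ := h L hL
  exact ⟨fun x => g (f x), H642R2.TMSim.polyTime_comp hg hf, fun x => ⟨fun hx => hY _ ((h x).1 hx),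
    fun hx => hZ _ ((h x).2 hx)⟩⟩

/-- The lists of units with `l.length ^ t` entries. -/
def pwl {α : Type} : ℕ → List α → List Unit
  | 0, _ => [()]
  | t + 1, l => (pwl t l).flatMap fun _ => l.map fun _ => ()

theorem length_pwl {α : Type} (l : List α) : ∀ t : ℕ, (pwl t l).length = l.length ^ t
  | 0 => rfl
  | t + 1 => by
    unfold pwl
    rw [List.length_flatMap]
    simp [length_pwl l t, pow_succ]

theorem poly_pwl {α β : Type} [TEnc α] [TEnc β] {l : β → List α} (hl : Poly l) :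
    ∀ t : ℕ, Poly (fun b => pwl t (l b))
  | 0 => by
    unfold pwl
    exact NPC.Poly.const _
  | t + 1 => by
    have h := poly_pwl hl t
    unfold pwl
    fun_prop

/-- The reduction on codes. -/
def red (q : ℕ) (P : ℕ × ℕ × List (ℕ × ℕ × List ℕ) → List Unit)
    (r0 : ℕ × ℕ × List (ℕ × ℕ × List ℕ)) (y : List Bool) : List Bool :=
  match (unbits (ℕ × ℕ × List (ℕ × ℕ × List ℕ)) y).map fun r => orR q r (copR (P r) r0) with
  | none => []
  | some b => bits b

theorem red_code (P : ℕ × ℕ × List (ℕ × ℕ × List ℕ) → List Unit) (g : Game N M q k)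
    (g0 : Game N' M' q' k') :
    red q P (raw g0) (code g) = code (orG g (copies (P (raw g)).length g0)) := by
  unfold red code
  rw [unbits_bits, Option.map_some, raw_or, raw_copies]

theorem polyTime_red (q : ℕ) {P : ℕ × ℕ × List (ℕ × ℕ × List ℕ) → List Unit} (hP : Poly P)
    (r0 : ℕ × ℕ × List (ℕ × ℕ × List ℕ)) : PolyTime (red q P r0) := by
  unfold red
  refine cast (congrArg PolyTime (funext fun y => ?_)) (polyTime_opt (g := fun y =>
    (unbits (ℕ × ℕ × List (ℕ × ℕ × List ℕ)) y).map fun r => orR q r (copR (P r) r0)) ?_)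
  · cases (unbits (ℕ × ℕ × List (ℕ × ℕ × List ℕ)) y) <;> rfl
  have h2 : Poly fun p : List Bool × (ℕ × ℕ × List (ℕ × ℕ × List ℕ)) =>
      orR q p.2 (copR (P p.2) r0) :=
    poly_orR q (NPC.Poly.snd NPC.Poly.id)
      (poly_copR (hP.comp (NPC.Poly.snd NPC.Poly.id)) (NPC.Poly.const _))
  exact NPC.Poly.optMap poly_unbits h2

/-- The reduction on codes without copies. -/
def red1 (q : ℕ) (r0 : ℕ × ℕ × List (ℕ × ℕ × List ℕ)) (y : List Bool) : List Bool :=
  match (unbits (ℕ × ℕ × List (ℕ × ℕ × List ℕ)) y).map fun r => orR q r r0 with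
  | none => []
  | some b => bits b

theorem red1_code (g : Game N M q k) (g0 : Game N' M' q' k') :
    red1 q (raw g0) (code g) = code (orG g g0) := by
  unfold red1 code
  rw [unbits_bits, Option.map_some, raw_or]

theorem polyTime_red1 (q : ℕ) (r0 : ℕ × ℕ × List (ℕ × ℕ × List ℕ)) : PolyTime (red1 q r0) := by
  unfold red1
  refine cast (congrArg PolyTime (funext fun y => ?_)) (polyTime_opt (g := fun y =>
    (unbits (ℕ × ℕ × List (ℕ × ℕ × List ℕ)) y).map fun r => orR q r r0) ?_)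
  · cases (unbits (ℕ × ℕ × List (ℕ × ℕ × List ℕ)) y) <;> rfl
  have h2 : Poly fun p : List Bool × (ℕ × ℕ × List (ℕ × ℕ × List ℕ)) => orR q p.2 r0 :=
    poly_orR q (NPC.Poly.snd NPC.Poly.id) (NPC.Poly.const _)
  exact NPC.Poly.optMap poly_unbits h2

theorem orG_le {v v' : ℝ} (hv : 0 ≤ v) (hv' : 0 ≤ v') {g : Game N M q k} (h : ValueAtMost v g)
    {g' : Game N' M' q' k'} (h' : ValueAtMost v' g') : ValueAtMost (v + v') (orG g g') :=
  or_le hv hv' h h'

end Pool.Agent.U16.UGO
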