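import Pool.Agent.NPC.Dec
import Pool.Agent.H578R2.Med.NPClos
import Pool.Agent.H671R2.PolyAuto

/-!
# Unique games and their combinations
-/

set_option autoImplicit false
set_option linter.unusedSectionVars false

namespace Pool.Agent.U16.UGO

open Finset Pool.Agent.NPC Pool.Agent.NPC.R671

/-- A unique game with `N` left vertices, `M` right vertices, alphabet `{0, …, q - 1}` and a list of
`k` edges: each edge has a left vertex, a right vertex and a permutation of the alphabet. -/
abbrev Game (N M q k : ℕ) : Type := Fin k → Fin N × Fin M × Equiv.Perm (Fin q)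

variable {N M q k N' M' q' k' : ℕ}

/-- The edges which are satisfied by a labeling. -/
def sat (g : Game N M q k) (L : Fin N → Fin q) (R : Fin M → Fin q) : Finset (Fin k) :=
  univ.filter fun e => (g e).2.2 (L (g e).1) = R (g e).2.1

/-- The value of the game is at least `v`. -/
def ValueAtLeast (v : ℝ) (g : Game N M q k) : Prop :=
  ∃ (L : Fin N → Fin q) (R : Fin M → Fin q), v * k ≤ ((sat g L R).card : ℝ)

/-- The value of the game is at most `v`. -/
def ValueAtMost (v : ℝ) (g : Game N M q k) : Prop :=
  ∀ (L : Fin N → Fin q) (R : Fin M → Fin q), ((sat g L R).card : ℝ) ≤ v * k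

/-- The data of a game: the numbers of the vertices and the list of the edges, the permutation being
given by the list of its values. -/
def raw (g : Game N M q k) : ℕ × ℕ × List (ℕ × ℕ × List ℕ) :=
  (N, M, List.ofFn fun e => (((g e).1 : ℕ), ((g e).2.1 : ℕ), List.ofFn fun a => ((g e).2.2 a : ℕ)))

/-- The code of a game as a bit string. -/
def code (g : Game N M q k) : List Bool := bits (raw g)

/-- The permutation of two disjoint alphabets. -/
def psum (π : Equiv.Perm (Fin q)) (π' : Equiv.Perm (Fin q')) : Equiv.Perm (Fin (q + q')) :=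
  finSumFinEquiv.symm.trans ((Equiv.sumCongr π π').trans finSumFinEquiv)

@[simp] theorem psum_left (π : Equiv.Perm (Fin q)) (π' : Equiv.Perm (Fin q')) (a : Fin q) :
    psum π π' (Fin.castAdd q' a) = Fin.castAdd q' (π a) := by
  simp [psum]

@[simp] theorem psum_right (π : Equiv.Perm (Fin q)) (π' : Equiv.Perm (Fin q')) (a : Fin q') :
    psum π π' (Fin.natAdd q a) = Fin.natAdd q (π' a) := by
  simp [psum]

/-- The disjunction of two games: the vertices, and the edges, are the pairs of vertices, and of
edges, and the alphabet is the disjoint union of the alphabets. -/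
def orG (g : Game N M q k) (g' : Game N' M' q' k') :
    Game (N * N') (M * M') (q + q') (k * k') := fun e =>
  (finProdFinEquiv ((g (finProdFinEquiv.symm e).1).1, (g' (finProdFinEquiv.symm e).2).1),
    finProdFinEquiv ((g (finProdFinEquiv.symm e).1).2.1, (g' (finProdFinEquiv.symm e).2).2.1),
    psum (g (finProdFinEquiv.symm e).1).2.2 (g' (finProdFinEquiv.symm e).2).2.2)

/-- `m` disjoint copies of a game. -/
def copies (m : ℕ) (g : Game N M q k) : Game (N * m) (M * m) q (k * m) := fun e =>
  (finProdFinEquiv ((g (finProdFinEquiv.symm e).1).1, (finProdFinEquiv.symm e).2),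
    finProdFinEquiv ((g (finProdFinEquiv.symm e).1).2.1, (finProdFinEquiv.symm e).2),
    (g (finProdFinEquiv.symm e).1).2.2)

theorem card_pairs (p : Fin (k * k') → Prop) [DecidablePred p] :
    (univ.filter p).card = ∑ j : Fin k', (univ.filter fun i : Fin k =>
      p (finProdFinEquiv (i, j))).card := by
  rw [Finset.card_filter, ← Equiv.sum_comp finProdFinEquiv, Fintype.sum_prod_type_right]
  refine Finset.sum_congr rfl fun j _ => ?_
  rw [Finset.card_filter]

theorem card_pairs' (p : Fin (k * k') → Prop) [DecidablePred p] :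
    (univ.filter p).card = ∑ i : Fin k, (univ.filter fun j : Fin k' =>
      p (finProdFinEquiv (i, j))).card := by
  rw [Finset.card_filter, ← Equiv.sum_comp finProdFinEquiv, Fintype.sum_prod_type]
  refine Finset.sum_congr rfl fun j _ => ?_
  rw [Finset.card_filter]

/-- The value of the disjunction is at least the value of the first game. -/
theorem or_left {v : ℝ} {g : Game N M q k} (h : ValueAtLeast v g) (g' : Game N' M' q' k') :
    ValueAtLeast v (orG g g') := by
  obtain ⟨L, R, h⟩ := h
  refine ⟨fun w => Fin.castAdd q' (L (finProdFinEquiv.symm w).1),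
    fun w => Fin.castAdd q' (R (finProdFinEquiv.symm w).1), ?_⟩
  have h1 : (sat (orG g g') (fun w => Fin.castAdd q' (L (finProdFinEquiv.symm w).1))
      fun w => Fin.castAdd q' (R (finProdFinEquiv.symm w).1)).card = k' * (sat g L R).card := by
    unfold sat
    rw [card_pairs]
    have h2 : ∀ j : Fin k', (univ.filter fun i : Fin k =>
        (orG g g' (finProdFinEquiv (i, j))).2.2 (Fin.castAdd q' (L (finProdFinEquiv.symm
          (orG g g' (finProdFinEquiv (i, j))).1).1)) = Fin.castAdd q' (R (finProdFinEquiv.symm
          (orG g g' (finProdFinEquiv (i, j))).2.1).1)) =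
        univ.filter fun e => (g e).2.2 (L (g e).1) = R (g e).2.1 := by
      intro j
      refine Finset.filter_congr fun i _ => ?_
      unfold orG
      simp only [Equiv.symm_apply_apply, psum_left, Fin.castAdd_inj]
    simp only [h2]
    rw [Finset.sum_const, Finset.card_univ, Fintype.card_fin, smul_eq_mul]
  rw [h1]
  push_cast
  have h3 : (0 : ℝ) ≤ k' := Nat.cast_nonneg _
  calc v * (k * k' : ℝ) = k' * (v * k) := by ring
    _ ≤ _ := mul_le_mul_of_nonneg_left h h3

/-- The edges satisfied by labels of a larger alphabet that belong to the alphabet of the game. -/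
theorem part_le {v : ℝ} (hv : 0 ≤ v) {g : Game N M q k} (h : ValueAtMost v g) {B : Type}
    [DecidableEq B] (ι : Fin q → B) (hι : Function.Injective ι) (L : Fin N → B) (R : Fin M → B) :
    ((univ.filter fun i : Fin k => ∃ a, L (g i).1 = ι a ∧ R (g i).2.1 = ι ((g i).2.2 a)).card : ℝ) ≤
      v * k := by
  classical
  rcases Nat.eq_zero_or_pos q with hq | hq
  · subst hq
    have h2 : (univ.filter fun i : Fin k => ∃ a, L (g i).1 = ι a ∧
        R (g i).2.1 = ι ((g i).2.2 a)) = ∅ := by
      ext i
      simp
    rw [h2, Finset.card_empty, Nat.cast_zero]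
    positivity
  · let dL : Fin N → Fin q := fun u => if h : ∃ a, L u = ι a then h.choose else ⟨0, hq⟩
    let dR : Fin M → Fin q := fun u => if h : ∃ a, R u = ι a then h.choose else ⟨0, hq⟩
    have hdL : ∀ u a, L u = ι a → dL u = a := by
      intro u a hu
      have hex : ∃ a, L u = ι a := ⟨a, hu⟩
      have h1 : dL u = hex.choose := dif_pos hex
      rw [h1]
      exact hι (hex.choose_spec.symm.trans hu)
    have hdR : ∀ u a, R u = ι a → dR u = a := by
      intro u a hu
      have hex : ∃ a, R u = ι a := ⟨a, hu⟩
      have h1 : dR u = hex.choose := dif_pos hex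
      rw [h1]
      exact hι (hex.choose_spec.symm.trans hu)
    refine le_trans ?_ (h dL dR)
    have h2 : (univ.filter fun i : Fin k => ∃ a, L (g i).1 = ι a ∧
        R (g i).2.1 = ι ((g i).2.2 a)) ⊆ sat g dL dR := by
      intro i hi
      rw [mem_filter] at hi
      obtain ⟨-, a, hi1, hi2⟩ := hi
      unfold sat
      rw [mem_filter]
      exact ⟨mem_univ _, by rw [hdL _ _ hi1, hdR _ _ hi2]⟩
    exact_mod_cast Finset.card_le_card h2

/-- The value of the disjunction is at most the sum of the values. -/
theorem or_le {v v' : ℝ} (hv : 0 ≤ v) (hv' : 0 ≤ v') {g : Game N M q k} (h : ValueAtMost v g)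
    {g' : Game N' M' q' k'} (h' : ValueAtMost v' g') : ValueAtMost (v + v') (orG g g') := by
  classical
  intro L R
  have e1 : ∀ i j, (orG g g' (finProdFinEquiv (i, j))).1 =
      finProdFinEquiv ((g i).1, (g' j).1) := by
    intro i j
    unfold orG
    simp only [Equiv.symm_apply_apply]
  have e2 : ∀ i j, (orG g g' (finProdFinEquiv (i, j))).2.1 =
      finProdFinEquiv ((g i).2.1, (g' j).2.1) := by
    intro i j
    unfold orG
    simp only [Equiv.symm_apply_apply]
  have e3 : ∀ i j, (orG g g' (finProdFinEquiv (i, j))).2.2 = psum (g i).2.2 (g' j).2.2 := by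
    intro i j
    unfold orG
    simp only [Equiv.symm_apply_apply]
  set p1 : Fin (k * k') → Prop := fun e => ∃ a, L (orG g g' e).1 = Fin.castAdd q' a ∧
    R (orG g g' e).2.1 = Fin.castAdd q' ((g (finProdFinEquiv.symm e).1).2.2 a) with hp1
  set p2 : Fin (k * k') → Prop := fun e => ∃ a, L (orG g g' e).1 = Fin.natAdd q a ∧
    R (orG g g' e).2.1 = Fin.natAdd q ((g' (finProdFinEquiv.symm e).2).2.2 a) with hp2
  have hsplit : sat (orG g g') L R ⊆ univ.filter p1 ∪ univ.filter p2 := by
    intro e he
    unfold sat at he
    rw [mem_filter] at he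
    obtain ⟨-, he⟩ := he
    rw [mem_union, mem_filter, mem_filter]
    have e3' : (orG g g' e).2.2 = psum (g (finProdFinEquiv.symm e).1).2.2
      (g' (finProdFinEquiv.symm e).2).2.2 := rfl
    rw [e3'] at he
    obtain ⟨x, hx⟩ : ∃ x, x = L (orG g g' e).1 := ⟨_, rfl⟩
    rw [← hx] at he
    revert he hx
    refine Fin.addCases (fun a => ?_) (fun a => ?_) x
    · intro he hx
      rw [psum_left] at he
      exact Or.inl ⟨mem_univ _, a, hx.symm, he.symm⟩
    · intro he hx
      rw [psum_right] at he
      exact Or.inr ⟨mem_univ _, a, hx.symm, he.symm⟩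
  have h1 : ((univ.filter p1).card : ℝ) ≤ v * k * k' := by
    rw [card_pairs]
    push_cast
    calc _ ≤ ∑ _j : Fin k', v * (k : ℝ) := Finset.sum_le_sum fun j _ => by
          have := part_le hv h (Fin.castAdd q') (Fin.castAdd_injective _ _)
            (fun u => L (finProdFinEquiv (u, (g' j).1)))
            (fun u => R (finProdFinEquiv (u, (g' j).2.1)))
          refine le_trans (le_of_eq ?_) this
          congr 2
          refine Finset.filter_congr fun i _ => ?_
          rw [hp1]
          simp only [e1, e2, Equiv.symm_apply_apply]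
      _ = v * k * k' := by
        rw [Finset.sum_const, Finset.card_univ, Fintype.card_fin, nsmul_eq_mul]
        ring
  have h2 : ((univ.filter p2).card : ℝ) ≤ v' * k * k' := by
    rw [card_pairs']
    push_cast
    calc _ ≤ ∑ _j : Fin k, v' * (k' : ℝ) := Finset.sum_le_sum fun i _ => by
          have := part_le hv' h' (Fin.natAdd q) (Fin.natAdd_injective _ _)
            (fun u => L (finProdFinEquiv ((g i).1, u)))
            (fun u => R (finProdFinEquiv ((g i).2.1, u)))
          refine le_trans (le_of_eq ?_) this
          congr 2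
          refine Finset.filter_congr fun j _ => ?_
          rw [hp2]
          simp only [e1, e2, Equiv.symm_apply_apply]
      _ = v' * k * k' := by
        rw [Finset.sum_const, Finset.card_univ, Fintype.card_fin, nsmul_eq_mul]
        ring
  have h3 : ((sat (orG g g') L R).card : ℝ) ≤ (univ.filter p1).card + (univ.filter p2).card := by
    exact_mod_cast (Finset.card_le_card hsplit).trans (Finset.card_union_le _ _)
  push_cast
  linarith

/-- The value of the copies. -/
theorem copies_le {v : ℝ} (m : ℕ) {g : Game N M q k} (h : ValueAtMost v g) :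
    ValueAtMost v (copies m g) := by
  intro L R
  unfold sat
  rw [card_pairs]
  push_cast
  calc _ ≤ ∑ _j : Fin m, v * (k : ℝ) := Finset.sum_le_sum fun j _ => by
        refine le_trans (le_of_eq ?_) (h (fun u => L (finProdFinEquiv (u, j)))
          (fun u => R (finProdFinEquiv (u, j))))
        unfold sat
        congr 2
        refine Finset.filter_congr fun i _ => ?_
        unfold copies
        simp only [Equiv.symm_apply_apply]
    _ = v * (k * m) := by
      rw [Finset.sum_const, Finset.card_univ, Fintype.card_fin, nsmul_eq_mul]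
      ring

/-! ### The data -/

/-- The disjunction for the data. -/
def orR (q : ℕ) (r r' : ℕ × ℕ × List (ℕ × ℕ × List ℕ)) : ℕ × ℕ × List (ℕ × ℕ × List ℕ) :=
  (r.1 * r'.1, r.2.1 * r'.2.1, r.2.2.flatMap fun e => r'.2.2.map fun e' =>
    (e'.1 + r'.1 * e.1, e'.2.1 + r'.2.1 * e.2.1, e.2.2 ++ e'.2.2.map fun a => q + a))

/-- The copies for the data. -/
def copR (m : List Unit) (r : ℕ × ℕ × List (ℕ × ℕ × List ℕ)) : ℕ × ℕ × List (ℕ × ℕ × List ℕ) :=
  (r.1 * m.length, r.2.1 * m.length, r.2.2.flatMap fun e => (List.range m.length).map fun i =>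
    (i + m.length * e.1, i + m.length * e.2.1, e.2.2))

theorem ofFn_prod {α : Type} (f : Fin (k * k') → α) :
    List.ofFn f = (List.ofFn fun i : Fin k => List.ofFn fun j : Fin k' =>
      f (finProdFinEquiv (i, j))).flatten := by
  rw [List.ofFn_mul]
  congr 2
  funext i
  congr 1
  funext j
  congr 1
  ext
  simp [finProdFinEquiv]
  ring

theorem ofFn_flatMap {α β : Type} (f : Fin k → α) (F : α → List β) :
    (List.ofFn f).flatMap F = (List.ofFn fun i => F (f i)).flatten := by
  rw [List.flatMap_def, List.map_ofFn]
  rfl

theorem raw_or (g : Game N M q k) (g' : Game N' M' q' k') :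
    raw (orG g g') = orR q (raw g) (raw g') := by
  unfold raw orR
  refine Prod.ext rfl (Prod.ext rfl ?_)
  simp only
  rw [ofFn_prod, ofFn_flatMap]
  congr 2
  funext i
  rw [List.map_ofFn, List.ofFn_inj]
  funext j
  unfold orG
  simp only [Equiv.symm_apply_apply, Function.comp]
  refine Prod.ext rfl (Prod.ext rfl ?_)
  simp only
  rw [List.map_ofFn]
  apply List.ext_getElem
  · simp
  · intro a h1 h2
    rw [List.getElem_ofFn, List.getElem_append]
    simp only [List.length_ofFn] at h1
    split_ifs with h
    · simp only [List.length_ofFn] at h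
      rw [List.getElem_ofFn]
      have h3 : (⟨a, h1⟩ : Fin (q + q')) = Fin.castAdd q' ⟨a, h⟩ := rfl
      rw [h3, psum_left]
      rfl
    · simp only [List.length_ofFn, not_lt] at h
      rw [List.getElem_ofFn]
      have h3 : (⟨a, h1⟩ : Fin (q + q')) = Fin.natAdd q ⟨a - q, by omega⟩ := by
        ext
        simp only [Fin.natAdd_mk]
        omega
      rw [h3, psum_right]
      simp

theorem raw_copies (m : List Unit) (g : Game N M q k) :
    raw (copies m.length g) = copR m (raw g) := by
  unfold raw copR
  refine Prod.ext rfl (Prod.ext rfl ?_)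
  simp only
  rw [ofFn_prod, ofFn_flatMap]
  congr 2
  funext i
  apply List.ext_getElem
  · simp
  · intro a h1 h2
    rw [List.getElem_ofFn, List.getElem_map, List.getElem_range]
    unfold copies
    simp only [Equiv.symm_apply_apply]
    rfl

section poly

variable {α : Type} [TEnc α]

theorem poly_orR (q : ℕ) {r r' : α → ℕ × ℕ × List (ℕ × ℕ × List ℕ)} (hr : Poly r)
    (hr' : Poly r') : Poly (fun a => orR q (r a) (r' a)) := by
  unfold orR
  fun_prop

theorem poly_copR {m : α → List Unit} {r : α → ℕ × ℕ × List (ℕ × ℕ × List ℕ)} (hm : Poly m)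
    (hr : Poly r) : Poly (fun a => copR (m a) (r a)) := by
  have h1 : Poly (fun a => List.range (m a).length) := Poly.range_length hm
  unfold copR
  refine NPC.Poly.pair (by fun_prop) (NPC.Poly.pair (by fun_prop)
    (NPC.Poly.flatMap (by fun_prop) ?_))
  refine NPC.Poly.map (h1.comp (NPC.Poly.fst NPC.Poly.id)) ?_
  fun_prop

end poly

end Pool.Agent.U16.UGO
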