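import Pool.Agent.U16.UGO.Game
import Pool.Agent.W888.UG.KV

/-!
# Branch-and-cut proofs for combined games
-/

set_option autoImplicit false
set_option linter.unusedSectionVars false

namespace Pool.Agent.U16.UGO

open Finset Matrix Pool.Agent.W888.UG Pool.Agent.H562R2

section pull

variable {U V E A U' V' E' A' : Type} [Fintype U] [Fintype V] [Fintype E] [Fintype A]
  [Fintype U'] [Fintype V'] [Fintype E'] [Fintype A'] [DecidableEq E]

/-- A game whose solutions contain those of another game. -/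
structure Over (s : E → U) (t : E → V) (π : E → Equiv.Perm A) (s' : E' → U') (t' : E' → V')
    (π' : E' → Equiv.Perm A') where
  pU : U' → U
  pV : V' → V
  pE : E' → E
  ι : A → A'
  inj : Function.Injective ι
  hs : ∀ e, pU (s' e) = s (pE e)
  ht : ∀ e, pV (t' e) = t (pE e)
  hπ : ∀ e a, π' e (ι a) = ι (π (pE e) a)
  c : ℕ
  hc : ∀ e, (univ.filter fun e' => pE e' = e).card = c

namespace Over

variable {s : E → U} {t : E → V} {π : E → Equiv.Perm A} {s' : E' → U'} {t' : E' → V'}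
  {π' : E' → Equiv.Perm A'} (O : Over s t π s' t' π')

/-- The projection of the vertices. -/
def p : U' ⊕ V' → U ⊕ V := Sum.map O.pU O.pV

open Classical in
/-- Functions on labels extended by zero. -/
noncomputable def ex {B : Type} [Zero B] (f : U ⊕ V → A → B) (w : U' ⊕ V') (a' : A') : B :=
  if h : ∃ a, O.ι a = a' then f (O.p w) h.choose else 0

theorem ex_ι {B : Type} [Zero B] (f : U ⊕ V → A → B) (w : U' ⊕ V') (a : A) :
    O.ex f w (O.ι a) = f (O.p w) a := by
  have h : ∃ b, O.ι b = O.ι a := ⟨a, rfl⟩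
  unfold ex
  rw [dif_pos h, O.inj h.choose_spec]

theorem ex_not {B : Type} [Zero B] (f : U ⊕ V → A → B) (w : U' ⊕ V') {a' : A'}
    (h : ¬ ∃ a, O.ι a = a') : O.ex f w a' = 0 := by
  unfold ex
  rw [dif_neg h]

/-- Extension as a linear map. -/
noncomputable def Φ : (U ⊕ V → A → ℝ) →ₗ[ℝ] (U' ⊕ V' → A' → ℝ) where
  toFun f := O.ex f
  map_add' f g := by
    funext w a'
    by_cases h : ∃ a, O.ι a = a'
    · obtain ⟨a, rfl⟩ := h
      simp only [Pi.add_apply, O.ex_ι]
    · simp only [Pi.add_apply, O.ex_not _ _ h, add_zero]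
  map_smul' c f := by
    funext w a'
    by_cases h : ∃ a, O.ι a = a'
    · obtain ⟨a, rfl⟩ := h
      simp only [Pi.smul_apply, O.ex_ι, RingHom.id_apply]
    · simp only [Pi.smul_apply, O.ex_not _ _ h, smul_zero, RingHom.id_apply]

theorem sum_pE (f : E → ℝ) : ∑ e', f (O.pE e') = O.c * ∑ e, f e := by
  rw [← Finset.sum_fiberwise (s := univ) (g := O.pE) (f := fun e' => f (O.pE e')),
    Finset.mul_sum]
  refine Finset.sum_congr rfl fun e _ => ?_
  rw [Finset.sum_congr rfl (g := fun _ => f e), Finset.sum_const, O.hc, nsmul_eq_mul]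
  intro e' he'
  rw [(mem_filter.1 he').2]

theorem card_E : (Fintype.card E' : ℝ) = O.c * Fintype.card E := by
  have h := O.sum_pE fun _ => 1
  rw [Finset.sum_const, Finset.sum_const, Finset.card_univ, Finset.card_univ, nsmul_eq_mul,
    nsmul_eq_mul, mul_one, mul_one] at h
  exact h

theorem mem_relax {ε : ℝ} {μ : U ⊕ V → A → ℝ} (h : μ ∈ Relax s t π ε) :
    O.Φ μ ∈ Relax s' t' π' ε := by
  classical
  obtain ⟨D, iD, z, x, h1, h2, h3, h4, h5, h6⟩ := h
  have hv : ∀ i : Option (Option ((U' ⊕ V') × A')), ∃ j : Option (Option ((U ⊕ V) × A)),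
      vec z (O.ex x) i = vec z x j := by
    rintro (_ | _ | ⟨w, a'⟩)
    · exact ⟨none, rfl⟩
    · exact ⟨some none, rfl⟩
    · by_cases h : ∃ a, O.ι a = a'
      · obtain ⟨a, rfl⟩ := h
        exact ⟨some (some (O.p w, a)), O.ex_ι x w a⟩
      · exact ⟨none, O.ex_not x w h⟩
  refine ⟨D, iD, z, O.ex x, h1, fun w => ?_, fun w a' b' hab => ?_, fun i j k => ?_,
    fun w a' => ?_, ?_⟩
  · rw [← h2 (O.p w)]
    symm
    exact Fintype.sum_of_injective O.ι O.inj _ _
      (fun a' ha' => O.ex_not x w (fun ⟨a, ha⟩ => ha' ⟨a, ha⟩)) fun a => (O.ex_ι x w a).symm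
  · by_cases h : ∃ a, O.ι a = a'
    · obtain ⟨a, rfl⟩ := h
      by_cases h' : ∃ b, O.ι b = b'
      · obtain ⟨b, rfl⟩ := h'
        rw [O.ex_ι, O.ex_ι]
        exact h3 _ _ _ fun hab' => hab (by rw [hab'])
      · rw [O.ex_not _ _ h', dotProduct_zero]
    · rw [O.ex_not _ _ h, zero_dotProduct]
  · obtain ⟨i', hi⟩ := hv i
    obtain ⟨j', hj⟩ := hv j
    obtain ⟨k', hk⟩ := hv k
    rw [hi, hj, hk]
    exact h4 _ _ _
  · show O.ex μ w a' = _
    by_cases h : ∃ a, O.ι a = a'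
    · obtain ⟨a, rfl⟩ := h
      rw [O.ex_ι, O.ex_ι]
      exact h5 _ _
    · rw [O.ex_not _ _ h, O.ex_not _ _ h, zero_dotProduct]
  · have h7 : ∀ e', ∑ a', O.ex x (Sum.inl (s' e')) a' ⬝ᵥ O.ex x (Sum.inr (t' e')) (π' e' a') =
        ∑ a, x (Sum.inl (s (O.pE e'))) a ⬝ᵥ x (Sum.inr (t (O.pE e'))) (π (O.pE e') a) := by
      intro e'
      symm
      refine Fintype.sum_of_injective O.ι O.inj _ _ (fun a' ha' => ?_) fun a => ?_
      · rw [O.ex_not x _ (fun ⟨a, ha⟩ => ha' ⟨a, ha⟩), zero_dotProduct]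
      · rw [O.hπ, O.ex_ι, O.ex_ι]
        have e1 : O.p (Sum.inl (s' e')) = Sum.inl (s (O.pE e')) :=
          congrArg Sum.inl (O.hs e')
        have e2 : O.p (Sum.inr (t' e')) = Sum.inr (t (O.pE e')) :=
          congrArg Sum.inr (O.ht e')
        rw [e1, e2]
    simp only [h7]
    rw [O.sum_pE fun e => ∑ a, x (Sum.inl (s e)) a ⬝ᵥ x (Sum.inr (t e)) (π e a), O.card_E]
    calc (1 - ε) * (O.c * Fintype.card E : ℝ) = O.c * ((1 - ε) * Fintype.card E) := by ring
      _ ≤ _ := mul_le_mul_of_nonneg_left h6 (Nat.cast_nonneg _)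

theorem Φ_lab (l : U ⊕ V → A) : O.Φ (lab l) = lab fun w => O.ι (l (O.p w)) := by
  classical
  funext w a'
  show O.ex (lab l) w a' = _
  rw [lab_apply]
  by_cases h : ∃ a, O.ι a = a'
  · obtain ⟨a, rfl⟩ := h
    rw [O.ex_ι, lab_apply]
    exact if_congr O.inj.eq_iff.symm rfl rfl
  · rw [O.ex_not _ _ h, if_neg]
    exact fun h' => h ⟨_, h'⟩

include O in
/-- Covers by convex sets for the large game give such covers for the small one. -/
theorem cover {ε : ℝ} (F : List (Set (U' ⊕ V' → A' → ℝ))) (hconv : ∀ C ∈ F, Convex ℝ C)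
    (hmiss : ∀ C ∈ F, ∀ μ ∈ C, μ ∉ Relax s' t' π' ε)
    (hcov : ∀ l : U' ⊕ V' → A', ∃ C ∈ F, lab l ∈ C) :
    ∃ F0 : List (Set (U ⊕ V → A → ℝ)), F0.length = F.length ∧ (∀ C ∈ F0, Convex ℝ C) ∧
      (∀ C ∈ F0, ∀ μ ∈ C, μ ∉ Relax s t π ε) ∧ ∀ l : U ⊕ V → A, ∃ C ∈ F0, lab l ∈ C := by
  refine ⟨F.map fun C => O.Φ ⁻¹' C, List.length_map _, ?_, ?_, ?_⟩
  · intro C hC
    obtain ⟨C', hC', rfl⟩ := List.mem_map.1 hC
    exact (hconv C' hC').linear_preimage O.Φ
  · intro C hC μ hμ hR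
    obtain ⟨C', hC', rfl⟩ := List.mem_map.1 hC
    exact hmiss C' hC' _ hμ (O.mem_relax hR)
  · intro l
    obtain ⟨C, hC, hl⟩ := hcov fun w => O.ι (l (O.p w))
    refine ⟨O.Φ ⁻¹' C, List.mem_map.2 ⟨C, hC, rfl⟩, ?_⟩
    show O.Φ (lab l) ∈ C
    rw [O.Φ_lab]
    exact hl

end Over

end pull

/-- Games for which covers by convex sets without points of the relaxation need many sets. -/
theorem kv_base (ε δ : ℝ) (hε0 : 0 < ε) (hε1 : ε < 1) (hδ : 0 < δ) :
    ∃ (U V E A : Type) (_ : Fintype U) (_ : Fintype V) (_ : Fintype E) (_ : Nonempty E)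
      (_ : Fintype A) (_ : DecidableEq A) (_ : DecidableEq E) (s : E → U) (t : E → V)
      (π : E → Equiv.Perm A),
      (∀ (L : U → A) (M : V → A), ((Finset.univ.filter fun e =>
          π e (L (s e)) = M (t e)).card : ℝ) ≤ δ * Fintype.card E) ∧
      ∃ c : ℝ, 0 < c ∧ ∀ m : ℕ, ∀ F : List (Set ((U × Fin m) ⊕ (V × Fin m) → A → ℝ)),
        (∀ C ∈ F, Convex ℝ C) →
        (∀ C ∈ F, ∀ μ ∈ C, μ ∉ Relax (fun e : E × Fin m => (s e.1, e.2))
          (fun e : E × Fin m => (t e.1, e.2)) (fun e => π e.1) ε) →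
        (∀ l : (U × Fin m) ⊕ (V × Fin m) → A, ∃ C ∈ F, lab l ∈ C) →
        Real.exp (c * m) ≤ F.length := by
  classical
  obtain ⟨B, hBε⟩ := exists_nat_ge (8 / ε)
  have hB0R : (0 : ℝ) < B := lt_of_lt_of_le (by positivity) hBε
  have hB0 : 0 < B := by exact_mod_cast hB0R
  have hB8 : (8 : ℝ) ≤ B := by
    refine le_trans ?_ hBε
    rw [le_div_iff₀ hε0]
    linarith
  have hB8' : 8 ≤ B := by exact_mod_cast hB8
  have haB : 2 * 1 ≤ B := by omega
  have h2B : 2 / (B : ℝ) ≤ ε / 4 := by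
    rw [div_le_iff₀ hB0R]
    rw [div_le_iff₀ hε0] at hBε
    linarith
  obtain ⟨r, hr⟩ : ∃ r : ℝ, r = 1 - 2 / (B : ℝ) := ⟨_, rfl⟩
  have hr' : (1 - 2 * (1 : ℕ) / B : ℝ) = r := by rw [hr]; push_cast; ring
  have h2B' : 2 / (B : ℝ) ≤ 1 / 4 := by
    rw [div_le_iff₀ hB0R]
    linarith
  have h2B'' : 0 < 2 / (B : ℝ) := by positivity
  have hr0 : 0 ≤ r := by rw [hr]; linarith
  have hr1 : r < 1 := by rw [hr]; linarith
  obtain ⟨j0, hj0⟩ := exists_pow_lt_of_lt_one (show (0 : ℝ) < δ / 2 by positivity) hr1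
  obtain ⟨j, hjdef⟩ : ∃ j, j = j0 + 1 := ⟨_, rfl⟩
  have hj : 1 ≤ j := by omega
  have hrj : 2 * r ^ j ≤ δ := by
    have h1 : r ^ j ≤ r ^ j0 := pow_le_pow_of_le_one hr0 hr1.le (by omega)
    linarith
  have hneE : Nonempty (KE (8 * j) B) := by
    have : Nonempty (Fin B) := ⟨⟨0, hB0⟩⟩
    infer_instance
  have h256 : (2 : ℕ) ^ (8 * j) = 256 ^ j := by
    rw [pow_mul]; norm_num
  refine ⟨Fn (8 * j), Fn (8 * j), KE (8 * j) B, Gam (8 * j), inferInstance, inferInstance,
    inferInstance, hneE, inferInstance, inferInstance, inferInstance, ks (8 * j) B,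
    kt (8 * j) 1 B, kp (8 * j) 1 B, ?_, ?_⟩
  · intro L M
    have h := kv_value (k := 8 * j) (a := 1) hB0 haB 1 j (fun u => L u.1) (fun u => M u.1)
    have h1 : ((Finset.univ.filter fun e : KE (8 * j) B × Fin 1 =>
        kp (8 * j) 1 B e.1 (L (ks (8 * j) B e.1)) = M (kt (8 * j) 1 B e.1)).card) =
        (Finset.univ.filter fun e : KE (8 * j) B =>
          kp (8 * j) 1 B e (L (ks (8 * j) B e)) = M (kt (8 * j) 1 B e)).card := by
      rw [Finset.card_filter, Fintype.sum_prod_type, Finset.card_filter]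
      refine Finset.sum_congr rfl fun e _ => ?_
      rw [Fin.sum_univ_one]
    simp only at h
    rw [h1, Fintype.card_prod, Fintype.card_fin, mul_one] at h
    refine h.trans ?_
    refine mul_le_mul_of_nonneg_right ?_ (Nat.cast_nonneg _)
    refine le_trans ?_ hrj
    rw [hr']
    have h1 : Real.sqrt (1 / 2 ^ (8 * j)) = (1 / 16) ^ j := by
      have h2 : (1 : ℝ) / 2 ^ (8 * j) = ((1 / 16) ^ j) ^ 2 := by
        rw [← pow_mul, mul_comm j 2, pow_mul, pow_mul, ← _root_.one_div_pow]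
        norm_num
      rw [h2, Real.sqrt_sq (by positivity)]
    rw [h1, ← mul_pow]
    have h3 : ((3 : ℝ) * (1 / 16)) ^ j ≤ r ^ j := by
      apply pow_le_pow_left₀ (by norm_num)
      rw [hr]; linarith
    linarith
  · set Δ : ℕ := 2 ^ (8 * j + 1) * B ^ 2 ^ (8 * j) with hΔ
    have hΔ0 : 0 < Δ := by positivity
    have hcE : (0 : ℝ) < Fintype.card (KE (8 * j) B) := by
      exact_mod_cast Fintype.card_pos
    have hcA : (0 : ℝ) < Fintype.card (Gam (8 * j)) := by
      exact_mod_cast Fintype.card_pos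
    have hΔR : (0 : ℝ) < Δ := by exact_mod_cast hΔ0
    refine ⟨(ε / 2) ^ 3 * Fintype.card (KE (8 * j) B) /
      (32 * Fintype.card (Gam (8 * j)) * Δ), by positivity, fun m F hconv hmiss hcov => ?_⟩
    have hunif := kv_uniform (k := 8 * j) (a := 1) (B := B) (by omega) hB0 haB m (ε / 2) (by
      rw [hr', hr]
      nlinarith [sq_nonneg (2 / (B : ℝ))])
    have hdeg1 : ∀ u, (Finset.univ.filter fun e : KE (8 * j) B × Fin m =>
        ((ks (8 * j) B e.1, e.2) : Fn (8 * j) × Fin m) = u).card ≤ Δ := by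
      intro u
      refine le_trans ?_ (card_ks (k := 8 * j) (B := B) u.1)
      refine Finset.card_le_card_of_injOn (fun e => e.1) ?_ ?_
      · intro e he
        rw [Finset.mem_coe, Finset.mem_filter] at he
        rw [Finset.mem_coe, Finset.mem_filter]
        exact ⟨Finset.mem_univ _, by rw [← he.2]⟩
      · intro e he e' he' heq
        rw [Finset.mem_coe, Finset.mem_filter] at he he'
        refine Prod.ext heq ?_
        have h1 := congrArg Prod.snd he.2
        have h2 := congrArg Prod.snd he'.2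
        exact h1.trans h2.symm
    have hdeg2 : ∀ u, (Finset.univ.filter fun e : KE (8 * j) B × Fin m =>
        ((kt (8 * j) 1 B e.1, e.2) : Fn (8 * j) × Fin m) = u).card ≤ Δ := by
      intro u
      refine le_trans ?_ (card_kt (k := 8 * j) (a := 1) (B := B) u.1)
      refine Finset.card_le_card_of_injOn (fun e => e.1) ?_ ?_
      · intro e he
        rw [Finset.mem_coe, Finset.mem_filter] at he
        rw [Finset.mem_coe, Finset.mem_filter]
        exact ⟨Finset.mem_univ _, by rw [← he.2]⟩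
      · intro e he e' he' heq
        rw [Finset.mem_coe, Finset.mem_filter] at he he'
        refine Prod.ext heq ?_
        have h1 := congrArg Prod.snd he.2
        have h2 := congrArg Prod.snd he'.2
        exact h1.trans h2.symm
    have h := law_cover _ _ _ Δ hΔ0 hdeg1 hdeg2 (ε / 2) (ε / 2) (by positivity) (by positivity)
      (by linarith) hunif F hconv (by rw [add_halves]; exact hmiss) hcov
    refine le_trans (le_of_eq ?_) h
    congr 1
    have h5 : Fintype.card (KE (8 * j) B × Fin m) = Fintype.card (KE (8 * j) B) * m := by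
      rw [Fintype.card_prod (KE (8 * j) B), Fintype.card_fin]
    rw [h5]
    push_cast
    ring

end Pool.Agent.U16.UGO
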